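import Mathlib
import Pool.Agent.P.MP_c21a16_pr.Defs
import Pool.Agent.P.MP_c21a16_pr.Final

namespace Pool.Agent.Results.MP_c21a16_pr.UniformGap

open Filter Topology Pool.Agent.P.MP_c21a16_pr

/-- Uniform spectral gap for the random Schreier graphs of `GL_N(K)` acting on nonzero vectors:
for every finite field `K` there is `ε > 0` such that the proportion of pairs `(A, B)` in
`GL_N(K) × GL_N(K)` with `λ(G_N(A, B)) ≤ 4 - ε` tends to `1` as `N → ∞`. -/
theorem result (K : Type*) [Field K] [Fintype K] [DecidableEq K] :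
    ∃ ε : ℝ, 0 < ε ∧ Tendsto (fun N : ℕ =>
      (Nat.card {p : GL (Fin N) K × GL (Fin N) K // LamLe p.1 p.2 (4 - ε)} : ℝ) /
        Nat.card (GL (Fin N) K × GL (Fin N) K)) atTop (𝓝 1) :=
  final K

end Pool.Agent.Results.MP_c21a16_pr.UniformGap
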